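import Pool.Agent.H50Z.Aut.Tors

/-! The automorphism group of the torsor structure. -/

set_option autoImplicit false

namespace Pool.Agent.H50Z.Aut

open Encodable

section
variable (idx : List ℕ → ℕ) (h : ℕ → ℕ)

/-- The canonical node above the tuple `β` at level `n`. -/
def cn (β : List ℕ) (n : ℕ) : ℕ := encode (β, fw h (idx β + 1 + n))

def mk' (b : List ℕ) (n y : ℕ) : ℕ := mk b n (y ^^^ 2 ^ cn idx h b n)

/-- Extension of a map of the base to the whole structure. -/
def ext (g : ℕ → ℕ) (x : ℕ) : ℕ :=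
  if x % 2 = 0 then 2 * g (x / 2)
  else mk' idx h ((blk x).map g) (lev x) (vec x ^^^ 2 ^ cn idx h (blk x) (lev x))

theorem mk'_mod (b : List ℕ) (n y : ℕ) : mk' idx h b n y % 2 = 1 := mk_mod _ _ _
theorem blk_mk' (b : List ℕ) (n y : ℕ) : blk (mk' idx h b n y) = b := blk_mk _ _ _
theorem lev_mk' (b : List ℕ) (n y : ℕ) : lev (mk' idx h b n y) = n := lev_mk _ _ _
theorem vec_mk' (b : List ℕ) (n y : ℕ) : vec (mk' idx h b n y) = y ^^^ 2 ^ cn idx h b n :=
  vec_mk _ _ _

theorem mk'_eta {x : ℕ} (hx : x % 2 = 1) :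
    mk' idx h (blk x) (lev x) (vec x ^^^ 2 ^ cn idx h (blk x) (lev x)) = x := by
  unfold mk'
  rw [Nat.xor_assoc, Nat.xor_self, Nat.xor_zero, mk_eta hx]

theorem elt_cases (x : ℕ) : (∃ k, x = 2 * k) ∨ ∃ b n y, x = mk' idx h b n y := by
  rcases Nat.mod_two_eq_zero_or_one x with hx | hx
  · exact Or.inl ⟨x / 2, by omega⟩
  · exact Or.inr ⟨_, _, _, (mk'_eta idx h hx).symm⟩

theorem ext_even (g : ℕ → ℕ) (k : ℕ) : ext idx h g (2 * k) = 2 * g k := by
  unfold ext
  rw [if_pos (by omega), show 2 * k / 2 = k by omega]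

theorem ext_mk' (g : ℕ → ℕ) (b : List ℕ) (n y : ℕ) :
    ext idx h g (mk' idx h b n y) = mk' idx h (b.map g) n y := by
  unfold ext
  rw [if_neg (by rw [mk'_mod]; norm_num), blk_mk', lev_mk', vec_mk', Nat.xor_assoc, Nat.xor_self,
    Nat.xor_zero]

theorem ext_id (x : ℕ) : ext idx h id x = x := by
  rcases elt_cases idx h x with ⟨k, rfl⟩ | ⟨b, n, y, rfl⟩
  · rw [ext_even]; rfl
  · rw [ext_mk', List.map_id]

theorem ext_comp (f g : ℕ → ℕ) (x : ℕ) : ext idx h (f ∘ g) x = ext idx h f (ext idx h g x) := by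
  rcases elt_cases idx h x with ⟨k, rfl⟩ | ⟨b, n, y, rfl⟩
  · rw [ext_even, ext_even, ext_even]; rfl
  · rw [ext_mk', ext_mk', ext_mk', List.map_map]

/-- Extension as a group homomorphism. -/
def Phi : Equiv.Perm ℕ →* Equiv.Perm ℕ where
  toFun g :=
    { toFun := ext idx h g
      invFun := ext idx h g.symm
      left_inv := fun x => by rw [← ext_comp, Equiv.symm_comp_self, ext_id]
      right_inv := fun x => by rw [← ext_comp, Equiv.self_comp_symm, ext_id] }
  map_one' := Equiv.ext fun x => ext_id idx h x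
  map_mul' f g := Equiv.ext fun x => ext_comp idx h f g x

theorem Phi_apply (g : Equiv.Perm ℕ) (x : ℕ) : Phi idx h g x = ext idx h g x := rfl

theorem Phi_inj : Function.Injective (Phi idx h) := by
  intro f g hfg
  ext k
  have := congrArg (fun σ : Equiv.Perm ℕ => σ (2 * k)) hfg
  simp only [Phi_apply, ext_even] at this
  omega

variable {idx h} {Q : List ℕ → Prop}

theorem dn_cn (β : List ℕ) (n : ℕ) : dn (cn idx h β n) = (β, fw h (idx β + 1 + n)) :=
  dn_encode _

theorem valid_cn (hQ : ∀ n, Q (fw h n)) (β : List ℕ) (n : ℕ) : valid Q idx n (cn idx h β n) := by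
  unfold valid
  rw [dn_cn]
  exact ⟨hQ _, by simp⟩

theorem prd_cn (β : List ℕ) (n : ℕ) : prd (cn idx h β (n + 1)) = cn idx h β n := by
  unfold prd
  rw [dn_cn, ← add_assoc]
  simp only [fw_dropLast]
  rfl

theorem rel_mk' (hQ : ∀ n, Q (fw h n)) (t j : ℕ) (b b' : List ℕ) (n n' y y' : ℕ) :
    Rel Q idx t j (mk' idx h b n y) (mk' idx h b' n' y') ↔ b = b' ∧
      ((t = 1 ∧ n = n' ∧ bt y (· = j) = bt y' (· = j)) ∨
       (t = 2 ∧ n = n' + 1 ∧ bt y (pP Q idx n j) = bt y' (· = j)) ∨
       (t = 3 ∧ n = 0 ∧ bt y (pB Q idx j) = 0) ∨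
       (t = 4 ∧ n = 0 ∧ bt y (pC Q idx j) = if h (idx b) = j then 1 else 0) ∨
       (t = 5 ∧ n = j)) := by
  unfold Rel
  simp only [mk'_mod, blk_mk', lev_mk', vec_mk', true_and, bt_xor, bt_pow]
  refine and_congr_right ?_
  rintro rfl
  refine or_congr (and_congr_right fun _ => and_congr_right ?_)
    (or_congr (and_congr_right fun _ => and_congr_right ?_)
      (or_congr (and_congr_right fun _ => and_congr_right ?_)
        (or_congr (and_congr_right fun _ => and_congr_right ?_) Iff.rfl)))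
  · rintro rfl
    have := bt_lt y (· = j)
    have := bt_lt y' (· = j)
    split_ifs <;> omega
  · rintro rfl
    have := bt_lt y (pP Q idx (n' + 1) j)
    have := bt_lt y' (· = j)
    have e : pP Q idx (n' + 1) j (cn idx h b (n' + 1)) ↔ cn idx h b n' = j := by
      unfold pP
      rw [prd_cn]
      exact and_iff_right (valid_cn hQ _ _)
    simp only [e]
    split_ifs <;> omega
  · rintro rfl
    have := bt_lt y (pB Q idx j)
    have e : pB Q idx j (cn idx h b 0) ↔ encode b = j := by
      unfold pB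
      rw [dn_cn]
      exact and_iff_right (valid_cn hQ _ _)
    simp only [e]
    split_ifs <;> omega
  · rintro rfl
    have := bt_lt y (pC Q idx j)
    have e : pC Q idx j (cn idx h b 0) ↔ h (idx b) = j := by
      unfold pC
      rw [dn_cn]
      simp only [fw_getD]
      rw [if_pos (by omega)]
      exact and_iff_right (valid_cn hQ _ _)
    simp only [e]
    split_ifs <;> omega

theorem rel_ext (hQ : ∀ n, Q (fw h n)) (g : Equiv.Perm ℕ)
    (hg : ∀ b : List ℕ, h (idx (b.map g)) = h (idx b)) (t j x y : ℕ) :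
    Rel Q idx t j (ext idx h g x) (ext idx h g y) ↔ Rel Q idx t j x y := by
  rcases elt_cases idx h x with ⟨k, rfl⟩ | ⟨b, n, u, rfl⟩
  · rw [ext_even]
    exact iff_of_false (fun hh => by have := hh.1; omega) (fun hh => by have := hh.1; omega)
  rcases elt_cases idx h y with ⟨k, rfl⟩ | ⟨b', n', u', rfl⟩
  · rw [ext_even]
    exact iff_of_false (fun hh => by have := hh.2.1; omega) (fun hh => by have := hh.2.1; omega)
  rw [ext_mk', ext_mk', rel_mk' hQ, rel_mk' hQ, hg, (List.map_injective_iff.mpr g.injective).eq_iff]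

theorem tie_ext (g : Equiv.Perm ℕ) (l : List ℕ) : Tie (l.map (ext idx h g)) ↔ Tie l := by
  rcases l with _ | ⟨x, l⟩
  · rfl
  simp only [Tie, List.map_cons, List.headI_cons, List.tail_cons, reduceCtorEq, not_false_eq_true,
    true_and]
  rcases elt_cases idx h x with ⟨k, rfl⟩ | ⟨b, n, u, rfl⟩
  · rw [ext_even]
    exact iff_of_false (fun hh => by have := hh.1; omega) (fun hh => by have := hh.1; omega)
  · rw [ext_mk', blk_mk', blk_mk']
    simp only [mk'_mod, true_and]
    have e : (b.map g).map (2 * ·) = (b.map (2 * ·)).map (ext idx h g) := by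
      rw [List.map_map, List.map_map]
      refine List.map_congr_left fun k _ => ?_
      simp [ext_even]
    rw [e]
    exact (List.map_injective_iff.mpr (Phi idx h g).injective).eq_iff

theorem RR_ext (hQ : ∀ n, Q (fw h n)) (g : Equiv.Perm ℕ)
    (hg : ∀ b : List ℕ, h (idx (b.map g)) = h (idx b)) (i : ℕ) (l : List ℕ) :
    RR Q idx i (l.map (ext idx h g)) ↔ RR Q idx i l := by
  unfold RR
  rw [tie_ext, List.length_map]
  refine or_congr Iff.rfl (and_congr_right fun hl => ?_)
  obtain ⟨x, y, rfl⟩ := List.length_eq_two.mp hl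
  exact rel_ext hQ g hg _ _ x y

theorem RR_tie (l : List ℕ) : RR Q idx (Nat.pair 0 0) l ↔ Tie l := by
  simp [RR, Rel]

theorem RR_rel {t : ℕ} (ht : t ≠ 0) (j x y : ℕ) :
    RR Q idx (Nat.pair t j) [x, y] ↔ Rel Q idx t j x y := by
  simp [RR, ht]

theorem aut_odd {σ : Equiv.Perm ℕ} (hσ : ∀ i l, RR Q idx i (l.map σ) ↔ RR Q idx i l) {x : ℕ}
    (hx : x % 2 = 1) :
    σ x % 2 = 1 ∧ ((blk x).map (2 * ·)).map σ = (blk (σ x)).map (2 * ·) := by
  have := (hσ (Nat.pair 0 0) (x :: (blk x).map (2 * ·))).mpr (by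
    rw [RR_tie]; exact ⟨by simp, hx, rfl⟩)
  rw [RR_tie] at this
  exact this.2

theorem aut_symm {σ : Equiv.Perm ℕ} (hσ : ∀ i l, RR Q idx i (l.map σ) ↔ RR Q idx i l) :
    ∀ i l, RR Q idx i (l.map σ.symm) ↔ RR Q idx i l := by
  intro i l
  rw [← hσ i (l.map σ.symm)]
  simp

theorem aut_even {σ : Equiv.Perm ℕ} (hσ : ∀ i l, RR Q idx i (l.map σ) ↔ RR Q idx i l) (k : ℕ) :
    σ (2 * k) = 2 * (σ (2 * k) / 2) := by
  by_contra hcon
  have := (aut_odd (aut_symm hσ) (x := σ (2 * k)) (by omega)).1
  rw [Equiv.symm_apply_apply] at this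
  omega

/-- A coherent system of translations that fixes the base is trivial. -/
theorem coherent_zero (huniq : ∀ p L, (∀ n, L ≤ n → Q (fw p n)) → p = h)
    (hQ : ∀ n, Q (fw h n)) (u : ℕ → ℕ)
    (h2 : ∀ n j, bt (u (n + 1)) (pP Q idx (n + 1) j) = bt (u n) (· = j))
    (h3 : ∀ j, bt (u 0) (pB Q idx j) = 0) : ∀ n, u n = 0 := by
  have hcan : ∀ n i, (u n).testBit i = true → i = cn idx h (dn i).1 n := by
    intro n i hi
    have hstep : ∀ k (j : {j // (u (n + k)).testBit j = true}),
        ∃ j' : {j // (u (n + (k + 1))).testBit j = true},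
          valid Q idx (n + (k + 1)) j'.1 ∧ prd j'.1 = j.1 := by
      intro k j
      have := h2 (n + k) j.1
      rw [bt_bit, if_pos j.2] at this
      obtain ⟨j', a1, a2⟩ := bt_ne_zero (x := u (n + k + 1)) (p := pP Q idx (n + k + 1) j.1)
        (by omega)
      exact ⟨⟨j', a1⟩, a2⟩
    choose nx hnx using hstep
    let s : (k : ℕ) → {j // (u (n + k)).testBit j = true} := fun k => Nat.rec ⟨i, hi⟩ nx k
    have hs : ∀ k, valid Q idx (n + (k + 1)) (s (k + 1)).1 ∧ prd (s (k + 1)).1 = (s k).1 :=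
      fun k => hnx k (s k)
    have hd : ∀ k, dn (s k).1 = ((dn (s (k + 1)).1).1, (dn (s (k + 1)).1).2.dropLast) := by
      intro k
      rw [← (hs k).2]
      exact dn_encode _
    obtain ⟨p, hp⟩ := chain_path (fun k => (dn (s k).1).2)
      (fun k hk => by
        have := (hs k).1.2
        rw [hk] at this
        simp at this)
      (fun k => (congrArg Prod.snd (hd k)).symm)
    have hph : p = h := huniq p ((dn (s 0).1).2.length + 1) fun m hm => by
      obtain ⟨k, rfl⟩ : ∃ k, m = (dn (s 0).1).2.length + (k + 1) :=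
        ⟨m - (dn (s 0).1).2.length - 1, by omega⟩
      rw [← hp]
      exact (hs k).1.1
    subst hph
    have e1 : (dn i).1 = (dn (s 1).1).1 := by
      have := congrArg Prod.fst (hd 0)
      exact this
    have e2 : (dn (s 1).1).2 = fw p ((dn (s 0).1).2.length + 1) := hp 1
    have e3 : (dn (s 1).1).2.length = idx (dn (s 1).1).1 + 1 + (n + 1) := (hs 0).1.2
    have e4 := congrArg List.length e2
    rw [fw_length] at e4
    rw [← e4, e3] at e2
    have e5 : i = prd (s 1).1 := (hs 0).2.symm
    rw [e1]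
    refine e5.trans ?_
    unfold prd cn
    rw [e2, ← add_assoc, fw_dropLast]
  intro n
  induction n with
  | zero =>
    apply Nat.eq_of_testBit_eq
    intro i
    rw [Nat.zero_testBit]
    by_contra hcon
    have hi : (u 0).testBit i = true := by simpa using hcon
    have := h3 (encode (dn i).1)
    rw [bt_single (c := i) (fun i' a1 a2 => by
      rw [hcan 0 i' a1, hcan 0 i hi, encode_injective a2.2, ← hcan 0 i hi]), if_pos] at this
    · omega
    · refine ⟨hi, ?_, rfl⟩
      rw [hcan 0 i hi]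
      exact valid_cn hQ _ _
  | succ n ih =>
    apply Nat.eq_of_testBit_eq
    intro i
    rw [Nat.zero_testBit]
    by_contra hcon
    have hi : (u (n + 1)).testBit i = true := by simpa using hcon
    have := h2 n (prd i)
    rw [ih, bt_zero, bt_single (c := i) (fun i' a1 a2 => by
      have e : (dn i').1 = (dn i).1 := by
        have := congrArg Prod.fst (encode_injective (α := List ℕ × List ℕ) a2.2)
        exact this
      rw [hcan _ i' a1, e, ← hcan _ i hi]), if_pos] at this
    · omega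
    · refine ⟨hi, ?_, rfl⟩
      rw [hcan _ i hi]
      exact valid_cn hQ _ _

theorem aut_ext (huniq : ∀ p L, (∀ n, L ≤ n → Q (fw p n)) → p = h)
    (hQ : ∀ n, Q (fw h n)) {σ : Equiv.Perm ℕ}
    (hσ : ∀ i l, RR Q idx i (l.map σ) ↔ RR Q idx i l) :
    ∃ f : Equiv.Perm ℕ, (∀ b : List ℕ, h (idx (b.map f)) = h (idx b)) ∧ Phi idx h f = σ := by
  let f : Equiv.Perm ℕ :=
    { toFun := fun k => σ (2 * k) / 2
      invFun := fun k => σ.symm (2 * k) / 2
      left_inv := fun k => by
        simp only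
        rw [← aut_even hσ, Equiv.symm_apply_apply]; omega
      right_inv := fun k => by
        simp only
        rw [← aut_even (aut_symm hσ), Equiv.apply_symm_apply]; omega }
  have hf : ∀ k, σ (2 * k) = 2 * f k := fun k => aut_even hσ k
  have hrel : ∀ t j x y, t ≠ 0 → Rel Q idx t j x y → Rel Q idx t j (σ x) (σ y) := by
    intro t j x y ht hr
    rw [← RR_rel ht] at hr ⊢
    exact (hσ _ [x, y]).mpr hr
  have hform : ∀ b n y, ∃ y', σ (mk' idx h b n y) = mk' idx h (b.map f) n y' := by
    intro b n y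
    obtain ⟨a1, a2⟩ := aut_odd hσ (mk'_mod idx h b n y)
    rw [blk_mk'] at a2
    have a3 : blk (σ (mk' idx h b n y)) = b.map f := by
      have inj : Function.Injective (fun k : ℕ => 2 * k) := fun a b hab => by
        simp only at hab; omega
      apply List.map_injective_iff.mpr inj
      rw [← a2, List.map_map, List.map_map]
      exact List.map_congr_left fun k _ => hf k
    have a4 : lev (σ (mk' idx h b n y)) = n := by
      have := hrel 5 n (mk' idx h b n y) (mk' idx h b n y) (by norm_num)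
        ((rel_mk' hQ _ _ _ _ _ _ _ _).mpr (by simp))
      simpa using this.2.2.2
    have a5 := (mk'_eta idx h a1).symm
    rw [a3, a4] at a5
    exact ⟨_, a5⟩
  choose s hs using hform
  have hz : ∀ b n, s b n 0 = 0 := by
    intro b
    refine coherent_zero (idx := idx) huniq hQ (fun n => s b n 0) ?_ ?_
    · intro n j
      have := hrel 2 j (mk' idx h b (n + 1) 0) (mk' idx h b n 0) (by norm_num)
        ((rel_mk' hQ _ _ _ _ _ _ _ _).mpr (by simp [bt_zero]))
      rw [hs, hs, rel_mk' hQ] at this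
      simpa using this
    · intro j
      have := hrel 3 j (mk' idx h b 0 0) (mk' idx h b 0 0) (by norm_num)
        ((rel_mk' hQ _ _ _ _ _ _ _ _).mpr (by simp [bt_zero]))
      rw [hs, rel_mk' hQ] at this
      simpa using this
  have hid : ∀ b n y, s b n y = y := by
    intro b n y
    apply Nat.eq_of_testBit_eq
    intro j
    have key := hσ (Nat.pair 1 j) [mk' idx h b n y, mk' idx h b n 0]
    simp only [List.map_cons, List.map_nil] at key
    rw [RR_rel (by norm_num), RR_rel (by norm_num), hs, hs, hz, rel_mk' hQ, rel_mk' hQ] at key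
    simp only [true_and, bt_bit, Nat.zero_testBit] at key
    revert key
    cases (s b n y).testBit j <;> cases y.testBit j <;> simp
  refine ⟨f, fun b => ?_, ?_⟩
  · have key := hσ (Nat.pair 4 (h (idx b))) [mk' idx h b 0 0, mk' idx h b 0 0]
    simp only [List.map_cons, List.map_nil] at key
    rw [RR_rel (by norm_num), RR_rel (by norm_num), hs, hz, rel_mk' hQ, rel_mk' hQ] at key
    by_contra hcon
    simp [bt_zero, hcon] at key
  · ext x
    rw [Phi_apply]
    rcases elt_cases idx h x with ⟨k, rfl⟩ | ⟨b, n, y, rfl⟩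
    · rw [ext_even, hf]
    · rw [ext_mk', hs, hid]

end

end Pool.Agent.H50Z.Aut
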