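import Pool.Agent.H50Z.Aut.Uniq

/-! Reflection: an effectively closed permutation group is the group of permutations preserving
a labelling of tuples that is read off the unique path of a primitive recursive tree. -/

set_option autoImplicit false

namespace Pool.Agent.H50Z.Aut

open Encodable

/-- A primitive recursive tree with the same paths. -/
theorem exists_prim_tree (T : List ℕ → List ℕ → Bool) (hT : Computable₂ T) :
    ∃ T' : List ℕ → List ℕ → Prop, PrimrecRel T' ∧
      (∀ f g : ℕ → ℕ, (∀ n, T (fw f n) (fw g n) = true) → ∀ n, T' (fw f n) (fw g n)) ∧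
      (∀ (f g : ℕ → ℕ) (L : ℕ), (∀ n, L ≤ n → T' (fw f n) (fw g n)) →
        ∀ n, T (fw f n) (fw g n) = true) := by
  obtain ⟨c, hc⟩ := Nat.Partrec.Code.exists_code.mp hT
  have hev : ∀ a : List ℕ × List ℕ, c.eval (encode a) = Part.some (encode (T a.1 a.2)) := by
    intro a
    rw [hc]
    simp only [encodek]
    simp
  refine ⟨fun φ ψ => ∀ k ∈ List.range (φ.length + 1),
    ¬ Nat.Partrec.Code.evaln φ.length c (encode (φ.take k, ψ.take k)) = some 0, ?_, ?_, ?_⟩
  · have h1 : PrimrecRel fun (k : ℕ) (a : List ℕ × List ℕ) =>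
        ¬ Nat.Partrec.Code.evaln a.1.length c (encode (a.1.take k, a.2.take k)) = some 0 := by
      refine PrimrecPred.primrecRel (p := fun x : ℕ × (List ℕ × List ℕ) =>
        ¬ Nat.Partrec.Code.evaln x.2.1.length c (encode (x.2.1.take x.1, x.2.2.take x.1)) = some 0)
        (PrimrecPred.not (Primrec.eq.comp ?_ (Primrec.const (some 0))))
      exact Nat.Partrec.Code.primrec_evaln.comp
        (((Primrec.list_length.comp (Primrec.fst.comp Primrec.snd)).pair (Primrec.const c)).pair
          (Primrec.encode.comp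
            ((Primrec.list_take.comp Primrec.fst (Primrec.fst.comp Primrec.snd)).pair
              (Primrec.list_take.comp Primrec.fst (Primrec.snd.comp Primrec.snd)))))
    exact PrimrecPred.primrecRel (p := fun a : List ℕ × List ℕ => ∀ k ∈ List.range (a.1.length + 1),
        ¬ Nat.Partrec.Code.evaln a.1.length c (encode (a.1.take k, a.2.take k)) = some 0)
      (h1.forall_mem_list.comp
        (Primrec.list_range.comp (Primrec.succ.comp (Primrec.list_length.comp Primrec.fst)))
        Primrec.id)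
  · intro f g h n k hk hcon
    have hk' : k ≤ n := by simpa [Nat.lt_succ_iff] using hk
    rw [fw_take f hk', fw_take g hk'] at hcon
    have := Nat.Partrec.Code.evaln_sound (Option.mem_def.mpr hcon)
    rw [hev, Part.mem_some_iff] at this
    simp only [h k] at this
    exact absurd this (by decide)
  · intro f g L h k
    by_contra hcon
    have hf : T (fw f k) (fw g k) = false := by simpa using hcon
    have h0 : 0 ∈ c.eval (encode (fw f k, fw g k)) := by
      rw [hev, Part.mem_some_iff]; simp only [hf]; rfl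
    obtain ⟨N, hN⟩ := Nat.Partrec.Code.evaln_complete.mp h0
    refine h (L + k + N) (by omega) k (by simp; omega) ?_
    rw [fw_take f (by omega), fw_take g (by omega), fw_length]
    exact Option.mem_def.mp (Nat.Partrec.Code.evaln_mono (by omega) hN)

abbrev Ed : Type := List ℕ × List ℕ
abbrev Nd : Type := Ed × List ℕ
abbrev Ix : Type := ℕ × Nd × List Nd

def dW (m : ℕ) : List Nd := (decode m : Option (List Nd)).getD default
def dV (m : ℕ) : List Ed := (decode m : Option (List Ed)).getD default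
def dL (m : ℕ) : List ℕ := (decode m : Option (List ℕ)).getD default

theorem dW_encode (w : List Nd) : dW (encode w) = w := by simp [dW]
theorem dV_encode (w : List Ed) : dV (encode w) = w := by simp [dV]
theorem dL_encode (w : List ℕ) : dL (encode w) = w := by simp [dL]
theorem primrec_dW : Primrec dW := Primrec.option_getD_default.comp Primrec.decode
theorem primrec_dV : Primrec dV := Primrec.option_getD_default.comp Primrec.decode
theorem primrec_dL : Primrec dL := Primrec.option_getD_default.comp Primrec.decode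

section
variable (T : List ℕ → List ℕ → Prop)

/-- The tree of attempts to build a group element moving the first tuple to the second. -/
def Tr (e : Ed) (τ : List ℕ) : Prop :=
  T (τ.map fun x => x.unpair.1) (τ.map fun x => x.unpair.2) ∧
    (¬ (∀ x ∈ e.1, x < τ.length) ∨ e.1.map (fun x => (τ.getD x 0).unpair.1) = e.2)

def Chain (b : List ℕ) (v : List Ed) (c : List ℕ) : Prop :=
  v.map Prod.fst ++ [c] = b :: v.map Prod.snd

def Bad (b c : List ℕ) : Prop :=
  b.take (b.length / 2) = List.range (b.length / 2) ∧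
    c.drop (b.length / 2) = List.range (b.length / 2) ∧
      ¬ T (c.take (b.length / 2)) (b.drop (b.length / 2))

def Vi (v : List Ed) : Prop :=
  Chain (v.map Prod.fst).headI v (v.map Prod.snd).reverse.headI ∧
    Bad T (v.map Prod.fst).headI (v.map Prod.snd).reverse.headI

def par (s : Nd) : Nd := (s.1, s.2.dropLast)

def Ok (s : Nd) : Prop := ¬ s.2 = [] ∧ Tr T s.1 s.2

def CW (w' w : List Nd) : Prop := Vi T (w.map Prod.fst) ∧ w'.map par = w ∧ ∀ s ∈ w', Ok T s

def cond (i : Ix) (m : ℕ) : Prop :=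
  (i.1 = 0 ∧ Tr T i.2.1.1 (i.2.1.2 ++ [m])) ∨ (i.1 = 1 ∧ CW T (dW m) i.2.2) ∨
    (i.1 = 2 ∧ Vi T (dV m)) ∨ (i.1 = 3 ∧ Chain i.2.1.1.1 (dV m) i.2.1.1.2) ∨ 4 ≤ i.1

def pos (i : Ix) (m : ℕ) : List Ix :=
  if i.1 = 0 then [(1, (i.2.1.1, i.2.1.2 ++ [m]), i.2.2)]
  else if i.1 = 1 then [(0, i.2.1, dW m)]
  else if i.1 = 2 then [(0, i.2.1, (dV m).map fun e => (e, []))]
  else if i.1 = 3 then (dV m).map (fun e => (2, (e, []), [])) ++
    (dV m).map (fun e => (2, ((e.2, e.1), []), []))
  else if i.1 = 4 then [(3, i.2.1, i.2.2)]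
  else [(4, ((i.2.1.1.1, dL m), []), [])]

variable {T}

theorem primrec_Tr (hT : PrimrecRel T) : PrimrecRel (Tr T) := by
  have h1 : PrimrecRel fun (x : ℕ) (τ : List ℕ) => x < τ.length :=
    Primrec.nat_lt.comp₂ Primrec₂.left (Primrec.list_length.comp₂ Primrec₂.right)
  exact PrimrecPred.primrecRel (p := fun a : Ed × List ℕ => Tr T a.1 a.2)
    ((hT.comp
      (Primrec.list_map Primrec.snd ((Primrec.fst.comp Primrec.unpair).comp₂ Primrec₂.right))
      (Primrec.list_map Primrec.snd ((Primrec.snd.comp Primrec.unpair).comp₂ Primrec₂.right))).and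
    ((h1.forall_mem_list.comp (Primrec.fst.comp Primrec.fst) Primrec.snd).not.or
      (Primrec.eq.comp
        (Primrec.list_map (Primrec.fst.comp Primrec.fst)
          ((Primrec.fst.comp Primrec.unpair).comp₂
            ((Primrec.list_getD 0).comp₂ (Primrec.snd.comp₂ Primrec₂.left) Primrec₂.right)))
        (Primrec.snd.comp Primrec.fst))))

theorem primrec_Chain {α : Type} [Primcodable α] {b c : α → List ℕ} {v : α → List Ed}
    (hb : Primrec b) (hv : Primrec v) (hc : Primrec c) :
    PrimrecPred fun a => Chain (b a) (v a) (c a) :=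
  Primrec.eq.comp
    (Primrec.list_concat.comp (Primrec.list_map hv (Primrec.fst.comp₂ Primrec₂.right)) hc)
    (Primrec.list_cons.comp hb (Primrec.list_map hv (Primrec.snd.comp₂ Primrec₂.right)))

theorem primrec_Bad (hT : PrimrecRel T) : PrimrecRel (Bad T) := by
  have n : Primrec fun a : List ℕ × List ℕ => a.1.length / 2 :=
    Primrec.nat_div.comp (Primrec.list_length.comp Primrec.fst) (Primrec.const 2)
  exact PrimrecPred.primrecRel (p := fun a : List ℕ × List ℕ => Bad T a.1 a.2)
    ((Primrec.eq.comp (Primrec.list_take.comp n Primrec.fst) (Primrec.list_range.comp n)).and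
      ((Primrec.eq.comp (Primrec.list_drop.comp n Primrec.snd) (Primrec.list_range.comp n)).and
        (hT.comp (Primrec.list_take.comp n Primrec.snd)
          (Primrec.list_drop.comp n Primrec.fst)).not))

theorem primrec_Vi (hT : PrimrecRel T) : PrimrecPred (Vi T) := by
  have a : Primrec fun v : List Ed => (v.map Prod.fst).headI :=
    Primrec.list_headI.comp (Primrec.list_map Primrec.id (Primrec.fst.comp₂ Primrec₂.right))
  have b : Primrec fun v : List Ed => (v.map Prod.snd).reverse.headI :=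
    Primrec.list_headI.comp (Primrec.list_reverse.comp
      (Primrec.list_map Primrec.id (Primrec.snd.comp₂ Primrec₂.right)))
  exact (primrec_Chain a Primrec.id b).and ((primrec_Bad hT).comp a b)

theorem primrec_par : Primrec par :=
  Primrec.fst.pair (primrec_dropLast.comp Primrec.snd)

theorem primrec_Ok (hT : PrimrecRel T) : PrimrecPred (Ok T) :=
  (Primrec.eq.comp Primrec.snd (Primrec.const [])).not.and
    ((primrec_Tr hT).comp Primrec.fst Primrec.snd)

theorem primrec_CW (hT : PrimrecRel T) : PrimrecRel (CW T) :=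
  PrimrecPred.primrecRel (p := fun a : List Nd × List Nd => CW T a.1 a.2)
    (((primrec_Vi hT).comp (Primrec.list_map Primrec.snd (Primrec.fst.comp₂ Primrec₂.right))).and
      ((Primrec.eq.comp (Primrec.list_map Primrec.fst (primrec_par.comp₂ Primrec₂.right))
        Primrec.snd).and ((primrec_Ok hT).forall_mem_list.comp Primrec.fst)))

theorem primrec_cond (hT : PrimrecRel T) : PrimrecRel (cond T) := by
  have t : Primrec fun a : Ix × ℕ => a.1.1 := Primrec.fst.comp Primrec.fst
  have s : Primrec fun a : Ix × ℕ => a.1.2.1 := Primrec.fst.comp (Primrec.snd.comp Primrec.fst)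
  have w : Primrec fun a : Ix × ℕ => a.1.2.2 := Primrec.snd.comp (Primrec.snd.comp Primrec.fst)
  have e : Primrec fun a : Ix × ℕ => a.1.2.1.1 := Primrec.fst.comp s
  have te : ∀ k : ℕ, PrimrecPred fun a : Ix × ℕ => a.1.1 = k :=
    fun k => Primrec.eq.comp t (Primrec.const k)
  exact PrimrecPred.primrecRel (p := fun a : Ix × ℕ => cond T a.1 a.2)
    (((te 0).and ((primrec_Tr hT).comp e
        (Primrec.list_concat.comp (Primrec.snd.comp s) Primrec.snd))).or
      (((te 1).and ((primrec_CW hT).comp (primrec_dW.comp Primrec.snd) w)).or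
        (((te 2).and ((primrec_Vi hT).comp (primrec_dV.comp Primrec.snd))).or
          (((te 3).and (primrec_Chain (Primrec.fst.comp e) (primrec_dV.comp Primrec.snd)
            (Primrec.snd.comp e))).or
            (Primrec.nat_le.comp (Primrec.const 4) t)))))

theorem primrec_pos : Primrec₂ pos := by
  have t : Primrec fun a : Ix × ℕ => a.1.1 := Primrec.fst.comp Primrec.fst
  have s : Primrec fun a : Ix × ℕ => a.1.2.1 := Primrec.fst.comp (Primrec.snd.comp Primrec.fst)
  have w : Primrec fun a : Ix × ℕ => a.1.2.2 := Primrec.snd.comp (Primrec.snd.comp Primrec.fst)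
  have e : Primrec fun a : Ix × ℕ => a.1.2.1.1 := Primrec.fst.comp s
  have te : ∀ k : ℕ, PrimrecPred fun a : Ix × ℕ => a.1.1 = k :=
    fun k => Primrec.eq.comp t (Primrec.const k)
  have one : ∀ (k : ℕ) {f : Ix × ℕ → Nd} {g : Ix × ℕ → List Nd}, Primrec f → Primrec g →
      Primrec fun a : Ix × ℕ => [((k, f a, g a) : Ix)] := fun k f g hf hg =>
    Primrec.list_cons.comp ((Primrec.const k).pair (hf.pair hg)) (Primrec.const [])
  have v : Primrec fun a : Ix × ℕ => dV a.2 := primrec_dV.comp Primrec.snd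
  have p0 := one 1 (e.pair (Primrec.list_concat.comp (Primrec.snd.comp s) Primrec.snd)) w
  have p1 := one 0 s (primrec_dW.comp Primrec.snd)
  have p2 := one 0 s (Primrec.list_map (g := fun _ (e : Ed) => ((e, []) : Nd)) v
    (Primrec.snd.pair (Primrec.const [])).to₂)
  have p3a := Primrec.list_map (g := fun _ (e : Ed) => ((2, (e, []), []) : Ix)) v
    ((Primrec.const 2).pair ((Primrec.snd.pair (Primrec.const [])).pair (Primrec.const []))).to₂
  have p3b := Primrec.list_map (g := fun _ (e : Ed) => ((2, ((e.2, e.1), []), []) : Ix)) v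
    ((Primrec.const 2).pair (((((Primrec.snd.comp Primrec.snd).pair
      (Primrec.fst.comp Primrec.snd))).pair (Primrec.const [])).pair (Primrec.const []))).to₂
  have p4 := one 3 s w
  have p5 := one 4 (((Primrec.fst.comp e).pair (primrec_dL.comp Primrec.snd)).pair
    (Primrec.const [])) (Primrec.const [])
  exact Primrec₂.mk (f := pos)
    (Primrec.ite (te 0) p0 (Primrec.ite (te 1) p1 (Primrec.ite (te 2) p2
      (Primrec.ite (te 3) (Primrec.list_append.comp p3a p3b) (Primrec.ite (te 4) p4 p5)))))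

end

section
variable {G : Subgroup (Equiv.Perm ℕ)} {T : List ℕ → List ℕ → Prop}

/-- Some element of the group moves the first tuple to the second. -/
def Mv (G : Subgroup (Equiv.Perm ℕ)) (e : Ed) : Prop := ∃ g ∈ G, e.1.map g = e.2

theorem fw_map (p : ℕ → ℕ) (u : ℕ → ℕ) (n : ℕ) : (fw p n).map u = fw (fun k => u (p k)) n := by
  simp [fw]

theorem path_Mv (hG2 : ∀ (f g : ℕ → ℕ) (L : ℕ), (∀ n, L ≤ n → T (fw f n) (fw g n)) →
      ∃ σ ∈ G, ⇑σ = f) {e : Ed} {p : ℕ → ℕ} {L : ℕ} (h : ∀ n, L ≤ n → Tr T e (fw p n)) :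
    Mv G e := by
  obtain ⟨σ, hσ, hσf⟩ := hG2 (fun k => (p k).unpair.1) (fun k => (p k).unpair.2) L (fun n hn => by
    have := (h n hn).1
    rwa [fw_map, fw_map] at this)
  refine ⟨σ, hσ, ?_⟩
  have hlt : ∀ x ∈ e.1, x < L + e.1.sum + 1 := fun x hx => by
    have := List.le_sum_of_mem hx
    omega
  rcases (h (L + e.1.sum + 1) (by omega)).2 with h1 | h1
  · exact absurd (by simpa using hlt) h1
  · rw [← h1, hσf]
    refine List.map_congr_left fun x hx => ?_
    rw [fw_getD, if_pos (hlt x hx)]

theorem Mv_path (hG1 : ∀ g ∈ G, ∀ n, T (fw g n) (fw g.symm n)) {e : Ed} (h : Mv G e) :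
    ∃ p : ℕ → ℕ, ∀ n, Tr T e (fw p n) := by
  obtain ⟨g, hg, he⟩ := h
  refine ⟨fun k => Nat.pair (g k) (g.symm k), fun n => ⟨?_, ?_⟩⟩
  · rw [fw_map, fw_map]
    simpa only [Nat.unpair_pair] using hG1 g hg n
  · by_cases hlt : ∀ x ∈ e.1, x < (fw (fun k => Nat.pair (g k) (g.symm k)) n).length
    · right
      rw [← he]
      refine List.map_congr_left fun x hx => ?_
      rw [fw_getD, if_pos (by simpa using hlt x hx), Nat.unpair_pair]
    · exact Or.inl hlt

theorem not_bad (hG1 : ∀ g ∈ G, ∀ n, T (fw g n) (fw g.symm n)) {b c : List ℕ}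
    (h : Mv G (b, c)) : ¬ Bad T b c := by
  obtain ⟨g, hg, he⟩ := h
  simp only at he
  subst he
  rintro ⟨h1, h2, h3⟩
  apply h3
  rw [← List.map_take, h1]
  rw [← List.map_drop] at h2
  have h4 : b.drop (b.length / 2) = fw g.symm (b.length / 2) := by
    unfold fw
    rw [← h2, List.map_map]
    simp
  rw [h4]
  exact hG1 g hg _

theorem chain_Mv : ∀ (v : List Ed) (b c : List ℕ), Chain b v c → (∀ e ∈ v, Mv G e) → Mv G (b, c)
  | [], b, c, h, _ => by
    simp only [Chain, List.map_nil, List.nil_append, List.cons.injEq, and_true] at h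
    exact ⟨1, G.one_mem, by simp [h]⟩
  | e :: v, b, c, h, hv => by
    simp only [Chain, List.map_cons, List.cons_append, List.cons.injEq] at h
    obtain ⟨g, hg, h1⟩ := hv e (by simp)
    obtain ⟨g', hg', h2⟩ := chain_Mv v e.2 c h.2 (fun e' he' => hv e' (by simp [he']))
    refine ⟨g' * g, G.mul_mem hg' hg, ?_⟩
    simp only at h2 ⊢
    rw [← h2, ← h1, h.1, List.map_map]
    rfl

theorem wf_CW (hG1 : ∀ g ∈ G, ∀ n, T (fw g n) (fw g.symm n))
    (hG2 : ∀ (f g : ℕ → ℕ) (L : ℕ), (∀ n, L ≤ n → T (fw f n) (fw g n)) → ∃ σ ∈ G, ⇑σ = f) :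
    WellFounded (CW T) := by
  rw [wellFounded_iff_isEmpty_descending_chain]
  refine ⟨fun ⟨w, hw⟩ => ?_⟩
  have hv := (hw 0).1
  refine not_bad hG1 (chain_Mv _ _ _ hv.1 ?_) hv.2
  intro e he
  obtain ⟨s0, hs0, rfl⟩ := List.mem_map.mp he
  have hstep : ∀ k (s : {s : Nd // s ∈ w k}), ∃ s' : {s : Nd // s ∈ w (k + 1)},
      par s'.1 = s.1 := by
    intro k s
    have : s.1 ∈ (w (k + 1)).map par := by rw [(hw k).2.1]; exact s.2
    obtain ⟨s', h1, h2⟩ := List.mem_map.mp this
    exact ⟨⟨s', h1⟩, h2⟩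
  choose nx hnx using hstep
  let s : (k : ℕ) → {s : Nd // s ∈ w k} := fun k => Nat.rec ⟨s0, hs0⟩ nx k
  have hs : ∀ k, par (s (k + 1)).1 = (s k).1 := fun k => hnx k (s k)
  have hok : ∀ k, Ok T (s (k + 1)).1 := fun k => (hw k).2.2 _ (s (k + 1)).2
  have hfst : ∀ k, (s k).1.1 = s0.1 := by
    intro k
    induction k with
    | zero => rfl
    | succ k ih => rw [← ih, ← hs k]; rfl
  obtain ⟨p, hp⟩ := chain_path (fun k => (s k).1.2) (fun k => (hok k).1)
    (fun k => congrArg Prod.snd (hs k))
  refine path_Mv hG2 (p := p) (L := (s 0).1.2.length + 1) fun n hn => ?_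
  obtain ⟨k, rfl⟩ : ∃ k, n = (s 0).1.2.length + (k + 1) := ⟨n - (s 0).1.2.length - 1, by omega⟩
  rw [← hp, ← hfst (k + 1)]
  exact (hok k).2

def rk (i : Ix) : ℕ × List Nd × ℕ := (i.1 - 1, i.2.2, 1 - i.1)

theorem pos_lt (i : Ix) (m : ℕ) (hc : cond T i m) :
    ∀ j ∈ pos i m, Prod.Lex (· < ·) (Prod.Lex (CW T) (· < ·)) (rk j) (rk i) := by
  obtain ⟨t, s, w⟩ := i
  intro j hj
  unfold pos at hj
  simp only at hj
  split_ifs at hj with h0 h1 h2 h3 h4
  · subst h0
    rw [List.mem_singleton] at hj
    subst hj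
    exact Prod.Lex.right _ (Prod.Lex.right _ (by norm_num))
  · subst h1
    rw [List.mem_singleton] at hj
    subst hj
    have : CW T (dW m) w := by simpa [cond] using hc
    exact Prod.Lex.right _ (Prod.Lex.left _ _ this)
  · subst h2
    rw [List.mem_singleton] at hj
    subst hj
    exact Prod.Lex.left _ _ (by norm_num)
  · subst h3
    simp only [List.mem_append, List.mem_map] at hj
    rcases hj with ⟨e, _, rfl⟩ | ⟨e, _, rfl⟩ <;> exact Prod.Lex.left _ _ (by norm_num)
  · subst h4
    rw [List.mem_singleton] at hj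
    subst hj
    exact Prod.Lex.left _ _ (by norm_num)
  · rw [List.mem_singleton] at hj
    subst hj
    exact Prod.Lex.left _ _ (by simp only; omega)

theorem exists_label (hT : PrimrecRel T) (hG1 : ∀ g ∈ G, ∀ n, T (fw g n) (fw g.symm n))
    (hG2 : ∀ (f g : ℕ → ℕ) (L : ℕ), (∀ n, L ≤ n → T (fw f n) (fw g n)) → ∃ σ ∈ G, ⇑σ = f) :
    ∃ (h : ℕ → ℕ) (Q : List ℕ → Prop) (idx : List ℕ → ℕ), PrimrecPred Q ∧ Primrec idx ∧
      (∀ n, Q (fw h n)) ∧ (∀ p L, (∀ n, L ≤ n → Q (fw p n)) → p = h) ∧
      (∀ g ∈ G, ∀ b : List ℕ, h (idx (b.map g)) = h (idx b)) ∧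
      (∀ f : Equiv.Perm ℕ, (∀ b : List ℕ, h (idx (b.map f)) = h (idx b)) → f ∈ G) := by
  have wf := wf_CW hG1 hG2
  obtain ⟨h, Q, q1, q2, q3, hS⟩ := uniq_path (cond T) pos (primrec_cond hT) primrec_pos
    (InvImage (Prod.Lex (· < ·) (Prod.Lex (CW T) (· < ·))) rk)
    (InvImage.wf rk (WellFounded.prod_lex wellFounded_lt (WellFounded.prod_lex wf wellFounded_lt)))
    pos_lt
  set H : Ix → ℕ := fun i => h (encode i) with hH
  have e0 : ∀ s w, H (0, s, w) ≠ 0 ↔
      ∃ m, Tr T s.1 (s.2 ++ [m]) ∧ H (1, (s.1, s.2 ++ [m]), w) = 0 := by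
    intro s w
    rw [hS.ne_zero_iff]
    simp [cond, pos]
  have e1 : ∀ s w, H (1, s, w) ≠ 0 ↔ ∃ w', CW T w' w ∧ H (0, s, w') = 0 := by
    intro s w
    rw [hS.ne_zero_iff]
    constructor
    · rintro ⟨m, h1, h2⟩
      exact ⟨dW m, by simpa [cond] using h1, by simpa [pos] using h2⟩
    · rintro ⟨w', h1, h2⟩
      exact ⟨encode w', by simpa [cond, dW_encode] using h1, by simpa [pos, dW_encode] using h2⟩
  have e2 : ∀ s w, H (2, s, w) ≠ 0 ↔
      ∃ v, Vi T v ∧ H (0, s, v.map fun e => (e, [])) = 0 := by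
    intro s w
    rw [hS.ne_zero_iff]
    constructor
    · rintro ⟨m, h1, h2⟩
      exact ⟨dV m, by simpa [cond] using h1, by simpa [pos] using h2⟩
    · rintro ⟨w', h1, h2⟩
      exact ⟨encode w', by simpa [cond, dV_encode] using h1, by simpa [pos, dV_encode] using h2⟩
  let A : Ed → Prop := fun e => H (2, (e, []), []) = 0
  let Cn : List ℕ → List ℕ → Prop := fun b c => ∃ v, Chain b v c ∧ ∀ e ∈ v, A e ∧ A (e.2, e.1)
  have e3 : ∀ b c, H (3, ((b, c), []), []) ≠ 0 ↔ Cn b c := by
    intro b c
    rw [hS.ne_zero_iff]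
    constructor
    · rintro ⟨m, h1, h2⟩
      refine ⟨dV m, by simpa [cond] using h1, fun e he => ⟨h2 _ ?_, h2 _ ?_⟩⟩
      · simp only [pos]
        norm_num
        exact Or.inl he
      · simp only [pos]
        norm_num
        exact Or.inr ⟨e.1, e.2, he, rfl, rfl⟩
    · rintro ⟨w', h1, h2⟩
      refine ⟨encode w', by simpa [cond, dV_encode] using h1, ?_⟩
      intro j hj
      simp only [pos, dV_encode] at hj
      norm_num at hj
      rcases hj with ⟨a, b, h3, rfl⟩ | ⟨a, b, h3, rfl⟩
      · exact (h2 _ h3).1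
      · exact (h2 _ h3).2
  have e4 : ∀ b c, H (4, ((b, c), []), []) = 0 ↔ Cn b c := by
    intro b c
    rw [← e3, ← not_iff_not, ← Ne, hS.ne_zero_iff]
    simp [cond, pos]
  have e5a : ∀ b m, H (5, ((b, []), []), []) = m + 1 → Cn b (dL m) := by
    intro b m hm
    rw [← e4]
    simpa [pos] using (hS.1 _ _ hm).2
  have e5b : ∀ b m, Cn b (dL m) → H (5, ((b, []), []), []) ≠ 0 ∧
      H (5, ((b, []), []), []) ≤ m + 1 := by
    intro b m hm
    rw [← e4] at hm
    exact hS.2 _ m (by simp [cond]) (by simpa [pos] using hm)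
  have alive : ∀ w e p, (∀ n, Tr T e (fw p n)) → ∀ n, H (0, (e, fw p n), w) ≠ 0 := by
    intro w
    induction w using wf.induction with
    | _ w ih =>
      intro e p hp n
      rw [e0]
      refine ⟨p n, by rw [← fw_succ]; exact hp _, ?_⟩
      by_contra hcon
      obtain ⟨w', h1, h2⟩ := (e1 _ _).mp hcon
      rw [← fw_succ] at h2
      exact ih w' h1 e p hp _ h2
  have notall : ∀ w : List Nd, Vi T (w.map Prod.fst) → ¬ ∀ s ∈ w, H (0, s, w) ≠ 0 := by
    intro w
    induction w using wf.induction with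
    | _ w ih =>
      intro hv hall
      have : ∀ s : Nd, ∃ m, s ∈ w → Tr T s.1 (s.2 ++ [m]) ∧ H (1, (s.1, s.2 ++ [m]), w) = 0 := by
        intro s
        by_cases hs : s ∈ w
        · obtain ⟨m, hm⟩ := (e0 _ _).mp (hall s hs)
          exact ⟨m, fun _ => hm⟩
        · exact ⟨0, fun h => absurd h hs⟩
      choose m hm using this
      have hcw : CW T (w.map fun s => (s.1, s.2 ++ [m s])) w := by
        refine ⟨hv, ?_, ?_⟩
        · rw [List.map_map]
          conv_rhs => rw [← List.map_id w]
          refine List.map_congr_left fun s _ => ?_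
          simp [par]
        · intro s' hs'
          obtain ⟨s, hs, rfl⟩ := List.mem_map.mp hs'
          exact ⟨by simp, (hm s hs).1⟩
      refine ih _ hcw (by rw [List.map_map]; exact hv) ?_
      intro s' hs' h0
      obtain ⟨s, hs, rfl⟩ := List.mem_map.mp hs'
      exact (e1 _ _).mpr ⟨_, hcw, h0⟩ (hm s hs).2
  have hA : ∀ e, Mv G e → A e := by
    intro e he
    obtain ⟨p, hp⟩ := Mv_path hG1 he
    by_contra hcon
    obtain ⟨v, _, h2⟩ := (e2 _ _).mp hcon
    exact alive _ e p hp 0 h2
  have hgood : ∀ b c, Cn b c → ¬ Bad T b c := by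
    rintro b c ⟨v, h1, h2⟩ hbad
    rcases v with _ | ⟨e, v⟩
    · exact not_bad hG1 (chain_Mv [] b c h1 (by simp)) hbad
    · have hb : ((e :: v).map Prod.fst).headI = b := by
        simp only [Chain, List.map_cons, List.cons_append, List.cons.injEq] at h1
        simp [h1.1]
      have hc : ((e :: v).map Prod.snd).reverse.headI = c := by
        have h3 := congrArg List.reverse h1
        rw [List.reverse_append, List.reverse_cons (a := b)] at h3
        rcases hr : ((e :: v).map Prod.snd).reverse with _ | ⟨x, l⟩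
        · simp at hr
        · rw [hr] at h3
          simp only [List.reverse_singleton, List.cons_append, List.cons.injEq] at h3
          simp [h3.1]
      have hv : Vi T (e :: v) := by
        unfold Vi
        rw [hb, hc]
        exact ⟨h1, hbad⟩
      refine notall ((e :: v).map fun e => (e, [])) (by
        rw [List.map_map]
        have : (Prod.fst ∘ fun e : Ed => ((e, []) : Nd)) = id := rfl
        rw [this, List.map_id]
        exact hv) ?_
      intro s hs h0
      obtain ⟨e', he', rfl⟩ := List.mem_map.mp hs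
      exact (e2 _ []).mpr ⟨_, hv, h0⟩ (h2 e' he').1
  have crefl : ∀ b, Cn b b := fun b => ⟨[], by simp [Chain], by simp⟩
  have csymm : ∀ b c, Cn b c → Cn c b := by
    rintro b c ⟨v, h1, h2⟩
    refine ⟨(v.map fun e => (e.2, e.1)).reverse, ?_, ?_⟩
    · have h3 := congrArg List.reverse h1
      simp only [List.reverse_append, List.reverse_cons] at h3
      simp only [Chain, List.map_reverse, List.map_map]
      exact h3.symm
    · intro e he
      obtain ⟨e', he', rfl⟩ := List.mem_map.mp (List.mem_reverse.mp he)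
      exact ⟨(h2 e' he').2, (h2 e' he').1⟩
  have ctrans : ∀ b c d, Cn b c → Cn c d → Cn b d := by
    rintro b c d ⟨v, h1, h2⟩ ⟨v', h3, h4⟩
    refine ⟨v ++ v', ?_, ?_⟩
    · unfold Chain at *
      rw [List.map_append, List.map_append, List.append_assoc, h3, ← List.cons_append, ← h1]
      simp
    · intro e he
      rcases List.mem_append.mp he with he | he
      · exact h2 e he
      · exact h4 e he
  have hne : ∀ b, H (5, ((b, []), []), []) ≠ 0 :=
    fun b => (e5b b (encode b) (by rw [dL_encode]; exact crefl b)).1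
  have hle : ∀ b c, Cn b c → H (5, ((b, []), []), []) ≤ H (5, ((c, []), []), []) := by
    intro b c hbc
    obtain ⟨m, hm⟩ := Nat.exists_eq_succ_of_ne_zero (hne c)
    rw [hm]
    exact (e5b b m (ctrans _ _ _ hbc (e5a c m hm))).2
  refine ⟨h, Q, fun b => encode ((5, ((b, []), []), []) : Ix), q1, ?_, q2, q3, ?_, ?_⟩
  · exact Primrec.encode.comp ((Primrec.const 5).pair
      (((Primrec.id.pair (Primrec.const [])).pair (Primrec.const [])).pair (Primrec.const [])))
  · intro g hg b
    have : Cn b (b.map g) := by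
      refine ⟨[(b, b.map g)], by simp [Chain], ?_⟩
      intro e he
      rw [List.mem_singleton] at he
      subst he
      exact ⟨hA _ ⟨g, hg, rfl⟩, hA _ ⟨g⁻¹, G.inv_mem hg, by simp⟩⟩
    exact le_antisymm (hle _ _ (csymm _ _ this)) (hle _ _ this)
  · intro f hf
    obtain ⟨σ, hσ, hσf⟩ := hG2 f f.symm 0 (fun n _ => by
      obtain ⟨m, hm⟩ := Nat.exists_eq_succ_of_ne_zero (hne (List.range n ++ fw f.symm n))
      have h1 := e5a _ m hm
      have h2 := e5a _ m ((hf _).trans hm)
      have h3 := hgood _ _ (ctrans _ _ _ h1 (csymm _ _ h2))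
      have hl : (List.range n ++ fw f.symm n).length / 2 = n := by simp; omega
      have hm : (List.range n ++ fw f.symm n).map f = fw f n ++ List.range n := by
        simp [fw]
      unfold Bad at h3
      rw [hl, hm] at h3
      by_contra hcon
      apply h3
      refine ⟨by simp, by simp, ?_⟩
      rwa [List.take_left' (by simp), List.drop_left' (by simp)])
    rwa [← DFunLike.coe_injective hσf]

end

end Pool.Agent.H50Z.Aut
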