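import Pool.Agent.H50Z.Aut.Refl

/-! A computable structure built from torsors over inverse systems of elementary abelian
2-groups. -/

set_option autoImplicit false

namespace Pool.Agent.H50Z.Aut

open Encodable

open Classical in
/-- Number of bits of `x` below `N` at positions satisfying `p`. -/
noncomputable def cnt (x : ℕ) (p : ℕ → Prop) (N : ℕ) : ℕ :=
  Nat.count (fun i => x.testBit i = true ∧ p i) N

/-- Parity of the number of bits of `x` at positions satisfying `p`. -/
noncomputable def bt (x : ℕ) (p : ℕ → Prop) : ℕ := cnt x p x % 2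

theorem lt_of_testBit' {x i : ℕ} (h : x.testBit i = true) : i < x :=
  lt_of_lt_of_le Nat.lt_two_pow_self (Nat.ge_two_pow_of_testBit h)

open Classical in
theorem cnt_succ (x : ℕ) (p : ℕ → Prop) (N : ℕ) :
    cnt x p (N + 1) = cnt x p N + if x.testBit N = true ∧ p N then 1 else 0 := by
  unfold cnt
  rw [Nat.count_succ]

theorem cnt_stable (x : ℕ) (p : ℕ → Prop) (d : ℕ) : cnt x p (x + d) = cnt x p x := by
  induction d with
  | zero => rfl
  | succ d ih =>
    rw [← add_assoc, cnt_succ, ih, if_neg, add_zero]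
    rintro ⟨h, _⟩
    have := lt_of_testBit' h
    omega

theorem bt_eq (x : ℕ) (p : ℕ → Prop) {N : ℕ} (h : x ≤ N) : bt x p = cnt x p N % 2 := by
  obtain ⟨d, rfl⟩ := Nat.exists_eq_add_of_le h
  rw [cnt_stable]; rfl

theorem bt_lt (x : ℕ) (p : ℕ → Prop) : bt x p < 2 := Nat.mod_lt _ (by norm_num)

theorem bt_xor (x y : ℕ) (p : ℕ → Prop) : bt (x ^^^ y) p = (bt x p + bt y p) % 2 := by
  have key : ∀ N, cnt (x ^^^ y) p N % 2 = (cnt x p N + cnt y p N) % 2 := by
    intro N
    induction N with
    | zero => simp [cnt]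
    | succ N ih =>
      rw [cnt_succ, cnt_succ, cnt_succ, Nat.testBit_xor]
      by_cases hp : p N <;> cases x.testBit N <;> cases y.testBit N <;> simp [hp] <;> omega
  rw [bt_eq _ p (N := x + y + (x ^^^ y)) (by omega), bt_eq x p (N := x + y + (x ^^^ y)) (by omega),
    bt_eq y p (N := x + y + (x ^^^ y)) (by omega), key]
  omega

open Classical in
theorem bt_single {x c : ℕ} {p : ℕ → Prop} (h : ∀ i, x.testBit i = true → p i → i = c) :
    bt x p = if x.testBit c = true ∧ p c then 1 else 0 := by
  have key : ∀ N, cnt x p N = if c < N ∧ x.testBit c = true ∧ p c then 1 else 0 := by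
    intro N
    induction N with
    | zero => simp [cnt]
    | succ N ih =>
      rw [cnt_succ, ih]
      by_cases hN : N = c
      · subst hN
        simp
      · rw [if_neg (c := x.testBit N = true ∧ p N) (fun hh => hN (h N hh.1 hh.2))]
        have : c < N + 1 ↔ c < N := by omega
        simp only [this, add_zero]
  rw [bt_eq x p (N := x + c + 1) (by omega), key]
  have : c < x + c + 1 := by omega
  simp only [this, true_and]
  split_ifs <;> rfl

open Classical in
theorem bt_pow (c : ℕ) (p : ℕ → Prop) : bt (2 ^ c) p = if p c then 1 else 0 := by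
  rw [bt_single (c := c) (fun i hi _ => by
    rw [Nat.testBit_two_pow] at hi
    exact (of_decide_eq_true hi).symm)]
  simp

theorem bt_bit (x j : ℕ) : bt x (· = j) = if x.testBit j = true then 1 else 0 := by
  rw [bt_single (c := j) (fun i _ hi => hi)]
  simp

theorem bt_ne_zero {x : ℕ} {p : ℕ → Prop} (h : bt x p ≠ 0) : ∃ i, x.testBit i = true ∧ p i := by
  by_contra hcon
  apply h
  rw [bt_single (c := 0) (fun i h1 h2 => absurd ⟨i, h1, h2⟩ hcon), if_neg]
  exact fun hh => hcon ⟨0, hh⟩

theorem bt_zero (p : ℕ → Prop) : bt 0 p = 0 := by simp [bt, cnt]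

theorem primrec_testBit : PrimrecRel fun x i : ℕ => x.testBit i = true := by
  have hpow : Primrec fun i : ℕ => 2 ^ i :=
    (Primrec₂.unpaired'.mp Nat.Primrec.pow).comp (Primrec.const 2) Primrec.id
  refine PrimrecRel.of_eq (r := fun x i : ℕ => x / 2 ^ i % 2 = 1)
    (Primrec.eq.comp₂ (Primrec.nat_mod.comp₂ (Primrec.nat_div.comp₂ Primrec₂.left
      (hpow.comp₂ Primrec₂.right)) (Primrec₂.const 2)) (Primrec₂.const 1)) ?_
  intro x i
  simp [Nat.testBit_eq_decide_div_mod_eq]

theorem primrec_bt {α : Type} [Primcodable α] {x : α → ℕ} {p : α → ℕ → Prop} (hx : Primrec x)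
    (hp : PrimrecRel p) : Primrec fun a => bt (x a) (p a) := by
  classical
  have h1 : PrimrecRel fun (i : ℕ) (a : α) => (x a).testBit i = true ∧ p a i :=
    PrimrecPred.primrecRel (p := fun z : ℕ × α => (x z.2).testBit z.1 = true ∧ p z.2 z.1)
      ((primrec_testBit.comp (hx.comp Primrec.snd) Primrec.fst).and
        (hp.comp Primrec.snd Primrec.fst))
  refine (Primrec.nat_mod.comp (Primrec.list_length.comp
    (h1.listFilter.comp (Primrec.list_range.comp hx) Primrec.id)) (Primrec.const 2)).of_eq ?_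
  intro a
  unfold bt cnt Nat.count
  rw [List.countP_eq_length_filter]
  congr

theorem encode_dL (k : ℕ) : encode (dL k) = k := by
  unfold dL
  rw [Denumerable.decode_eq_ofNat]
  exact Denumerable.encode_ofNat k

def dn (i : ℕ) : List ℕ × List ℕ := (decode i : Option (List ℕ × List ℕ)).getD default
theorem dn_encode (w : List ℕ × List ℕ) : dn (encode w) = w := by
  unfold dn; rw [encodek]; rfl
theorem primrec_dn : Primrec dn := Primrec.option_getD_default.comp Primrec.decode

def prd (i : ℕ) : ℕ := encode ((dn i).1, (dn i).2.dropLast)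

def blk (x : ℕ) : List ℕ := dL (x / 2).unpair.1
def lev (x : ℕ) : ℕ := (x / 2).unpair.2.unpair.1
def vec (x : ℕ) : ℕ := (x / 2).unpair.2.unpair.2
def mk (b : List ℕ) (n v : ℕ) : ℕ := 2 * Nat.pair (encode b) (Nat.pair n v) + 1

theorem mk_div (b : List ℕ) (n v : ℕ) : mk b n v / 2 = Nat.pair (encode b) (Nat.pair n v) := by
  unfold mk; omega
theorem mk_mod (b : List ℕ) (n v : ℕ) : mk b n v % 2 = 1 := by unfold mk; omega
theorem blk_mk (b : List ℕ) (n v : ℕ) : blk (mk b n v) = b := by
  simp only [blk, mk_div, Nat.unpair_pair, dL_encode]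
theorem lev_mk (b : List ℕ) (n v : ℕ) : lev (mk b n v) = n := by
  simp only [lev, mk_div, Nat.unpair_pair]
theorem vec_mk (b : List ℕ) (n v : ℕ) : vec (mk b n v) = v := by
  simp only [vec, mk_div, Nat.unpair_pair]
theorem mk_eta {x : ℕ} (h : x % 2 = 1) : mk (blk x) (lev x) (vec x) = x := by
  simp only [mk, blk, lev, vec, encode_dL, Nat.pair_unpair]
  omega

theorem primrec_half : Primrec fun x : ℕ => (x / 2).unpair :=
  Primrec.unpair.comp (Primrec.nat_div.comp Primrec.id (Primrec.const 2))
theorem primrec_blk : Primrec blk := primrec_dL.comp (Primrec.fst.comp primrec_half)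
theorem primrec_lev : Primrec lev :=
  Primrec.fst.comp (Primrec.unpair.comp (Primrec.snd.comp primrec_half))
theorem primrec_vec : Primrec vec :=
  Primrec.snd.comp (Primrec.unpair.comp (Primrec.snd.comp primrec_half))

section
variable (Q : List ℕ → Prop) (idx : List ℕ → ℕ)

def valid (n i : ℕ) : Prop := Q (dn i).2 ∧ (dn i).2.length = idx (dn i).1 + 1 + n
def pP (n j i : ℕ) : Prop := valid Q idx n i ∧ prd i = j
def pB (j i : ℕ) : Prop := valid Q idx 0 i ∧ encode (dn i).1 = j
def pC (j i : ℕ) : Prop := valid Q idx 0 i ∧ (dn i).2.getD (idx (dn i).1) 0 = j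

def Rel (t j x y : ℕ) : Prop :=
  x % 2 = 1 ∧ y % 2 = 1 ∧ blk x = blk y ∧
    ((t = 1 ∧ lev x = lev y ∧ bt (vec x) (· = j) = bt (vec y) (· = j)) ∨
     (t = 2 ∧ lev x = lev y + 1 ∧ bt (vec x) (pP Q idx (lev x) j) = bt (vec y) (· = j)) ∨
     (t = 3 ∧ lev x = 0 ∧ bt (vec x) (pB Q idx j) = if encode (blk x) = j then 1 else 0) ∨
     (t = 4 ∧ lev x = 0 ∧ bt (vec x) (pC Q idx j) = 0) ∨
     (t = 5 ∧ lev x = j))

def Tie (l : List ℕ) : Prop :=
  ¬ l = [] ∧ l.headI % 2 = 1 ∧ l.tail = (blk l.headI).map (2 * ·)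

def RR (i : ℕ) (l : List ℕ) : Prop :=
  (i.unpair.1 = 0 ∧ Tie l) ∨
    (l.length = 2 ∧ Rel Q idx i.unpair.1 i.unpair.2 (l.getD 0 0) (l.getD 1 0))

variable {Q idx}

theorem primrec_valid (hQ : PrimrecPred Q) (hi : Primrec idx) : PrimrecRel (valid Q idx) :=
  PrimrecPred.primrecRel (p := fun a : ℕ × ℕ => valid Q idx a.1 a.2)
    ((hQ.comp (Primrec.snd.comp (primrec_dn.comp Primrec.snd))).and
      (Primrec.eq.comp (Primrec.list_length.comp (Primrec.snd.comp (primrec_dn.comp Primrec.snd)))
        (Primrec.nat_add.comp (Primrec.succ.comp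
          (hi.comp (Primrec.fst.comp (primrec_dn.comp Primrec.snd)))) Primrec.fst)))

theorem primrec_prd : Primrec prd :=
  Primrec.encode.comp ((Primrec.fst.comp primrec_dn).pair
    (primrec_dropLast.comp (Primrec.snd.comp primrec_dn)))

theorem primrec_Rel (hQ : PrimrecPred Q) (hi : Primrec idx) {α : Type} [Primcodable α]
    {t j x y : α → ℕ} (ht : Primrec t) (hj : Primrec j) (hx : Primrec x) (hy : Primrec y) :
    PrimrecPred fun a => Rel Q idx (t a) (j a) (x a) (y a) := by
  have hv := primrec_valid hQ hi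
  have odd : ∀ {z : α → ℕ}, Primrec z → PrimrecPred fun a => z a % 2 = 1 := fun hz =>
    Primrec.eq.comp (Primrec.nat_mod.comp hz (Primrec.const 2)) (Primrec.const 1)
  have te : ∀ k : ℕ, PrimrecPred fun a => t a = k := fun k => Primrec.eq.comp ht (Primrec.const k)
  have lx := primrec_lev.comp hx
  have ly := primrec_lev.comp hy
  have vx := primrec_vec.comp hx
  have vy := primrec_vec.comp hy
  have j1 : Primrec fun z : α × ℕ => j z.1 := hj.comp Primrec.fst
  have d1 : Primrec fun z : α × ℕ => (dn z.2).1 := Primrec.fst.comp (primrec_dn.comp Primrec.snd)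
  have d2 : Primrec fun z : α × ℕ => (dn z.2).2 := Primrec.snd.comp (primrec_dn.comp Primrec.snd)
  have v0 : PrimrecPred fun z : α × ℕ => valid Q idx 0 z.2 := hv.comp (Primrec.const 0) Primrec.snd
  have qA : PrimrecRel fun (a : α) (i : ℕ) => i = j a :=
    PrimrecPred.primrecRel (p := fun z : α × ℕ => z.2 = j z.1) (Primrec.eq.comp Primrec.snd j1)
  have qP : PrimrecRel fun (a : α) => pP Q idx (lev (x a)) (j a) :=
    PrimrecPred.primrecRel (p := fun z : α × ℕ => pP Q idx (lev (x z.1)) (j z.1) z.2)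
      ((hv.comp (lx.comp Primrec.fst) Primrec.snd).and
        (Primrec.eq.comp (primrec_prd.comp Primrec.snd) j1))
  have qB : PrimrecRel fun (a : α) => pB Q idx (j a) :=
    PrimrecPred.primrecRel (p := fun z : α × ℕ => pB Q idx (j z.1) z.2)
      (v0.and (Primrec.eq.comp (Primrec.encode.comp d1) j1))
  have qC : PrimrecRel fun (a : α) => pC Q idx (j a) :=
    PrimrecPred.primrecRel (p := fun z : α × ℕ => pC Q idx (j z.1) z.2)
      (v0.and (Primrec.eq.comp ((Primrec.list_getD 0).comp d2 (hi.comp d1)) j1))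
  have l0 : PrimrecPred fun a => lev (x a) = 0 := Primrec.eq.comp lx (Primrec.const 0)
  exact (odd hx).and ((odd hy).and
    ((Primrec.eq.comp (primrec_blk.comp hx) (primrec_blk.comp hy)).and
      (((te 1).and ((Primrec.eq.comp lx ly).and
        (Primrec.eq.comp (primrec_bt vx qA) (primrec_bt vy qA)))).or
      (((te 2).and ((Primrec.eq.comp lx (Primrec.succ.comp ly)).and
        (Primrec.eq.comp (primrec_bt vx qP) (primrec_bt vy qA)))).or
      (((te 3).and (l0.and (Primrec.eq.comp (primrec_bt vx qB)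
        (Primrec.ite (Primrec.eq.comp (Primrec.encode.comp (primrec_blk.comp hx)) hj)
          (Primrec.const 1) (Primrec.const 0))))).or
      (((te 4).and (l0.and (Primrec.eq.comp (primrec_bt vx qC) (Primrec.const 0)))).or
      ((te 5).and (Primrec.eq.comp lx hj))))))))

theorem primrec_Tie : PrimrecPred Tie :=
  (Primrec.eq.comp Primrec.id (Primrec.const [])).not.and
    ((Primrec.eq.comp (Primrec.nat_mod.comp Primrec.list_headI (Primrec.const 2))
      (Primrec.const 1)).and
    (Primrec.eq.comp Primrec.list_tail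
      (Primrec.list_map (primrec_blk.comp Primrec.list_headI)
        (Primrec.nat_double.comp₂ Primrec₂.right))))

theorem primrec_RR (hQ : PrimrecPred Q) (hi : Primrec idx) : PrimrecRel (RR Q idx) := by
  have u1 : Primrec fun a : ℕ × List ℕ => a.1.unpair.1 :=
    Primrec.fst.comp (Primrec.unpair.comp Primrec.fst)
  have u2 : Primrec fun a : ℕ × List ℕ => a.1.unpair.2 :=
    Primrec.snd.comp (Primrec.unpair.comp Primrec.fst)
  exact PrimrecPred.primrecRel (p := fun a : ℕ × List ℕ => RR Q idx a.1 a.2)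
    (((Primrec.eq.comp u1 (Primrec.const 0)).and (primrec_Tie.comp Primrec.snd)).or
      ((Primrec.eq.comp (Primrec.list_length.comp Primrec.snd) (Primrec.const 2)).and
        (primrec_Rel hQ hi u1 u2 ((Primrec.list_getD 0).comp Primrec.snd (Primrec.const 0))
          ((Primrec.list_getD 0).comp Primrec.snd (Primrec.const 1)))))

end

end Pool.Agent.H50Z.Aut
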