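import Mathlib

/-! Functions defined by well-founded recursion with least witnesses are the unique path of a
primitive recursive tree. -/

set_option autoImplicit false

namespace Pool.Agent.H50Z.Aut

open Encodable

/-- Initial segment of length `n`. -/
def fw (p : ℕ → ℕ) (n : ℕ) : List ℕ := (List.range n).map p

@[simp] theorem fw_length (p : ℕ → ℕ) (n : ℕ) : (fw p n).length = n := by simp [fw]

theorem fw_getD (p : ℕ → ℕ) (n j d : ℕ) : (fw p n).getD j d = if j < n then p j else d := by
  unfold fw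
  split_ifs with h
  · rw [List.getD_eq_getElem _ _ (by simpa using h)]; simp
  · rw [List.getD_eq_default _ _ (by simpa using h)]

theorem fw_succ (p : ℕ → ℕ) (n : ℕ) : fw p (n + 1) = fw p n ++ [p n] := by
  simp [fw, List.range_succ]

theorem fw_dropLast (p : ℕ → ℕ) (n : ℕ) : (fw p (n + 1)).dropLast = fw p n := by
  simp [fw_succ]

theorem fw_take (p : ℕ → ℕ) {n k : ℕ} (h : k ≤ n) : (fw p n).take k = fw p k := by
  unfold fw
  rw [← List.map_take, List.take_range, min_eq_left h]

theorem primrec_dropLast {α : Type} [Primcodable α] : Primrec (fun l : List α => l.dropLast) :=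
  (Primrec.list_take.comp (Primrec.nat_sub.comp Primrec.list_length (Primrec.const 1))
    Primrec.id).of_eq fun l => by simp [List.dropLast_eq_take]

/-- A chain of one step extensions comes from a path. -/
theorem chain_path (s : ℕ → List ℕ) (hne : ∀ k, s (k + 1) ≠ [])
    (hpre : ∀ k, (s (k + 1)).dropLast = s k) :
    ∃ p : ℕ → ℕ, ∀ k, s k = fw p ((s 0).length + k) := by
  have hlen : ∀ k, (s k).length = (s 0).length + k := by
    intro k
    induction k with
    | zero => rfl
    | succ k ih =>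
      have h1 := congrArg List.length (hpre k)
      have h2 : 0 < (s (k + 1)).length := List.length_pos_iff.mpr (hne k)
      simp only [List.length_dropLast] at h1
      omega
  have hstep : ∀ k d j, j < (s k).length → (s (k + d)).getD j 0 = (s k).getD j 0 := by
    intro k d j hj
    induction d with
    | zero => rfl
    | succ d ih =>
      rw [← ih, ← hpre (k + d)]
      have h1 : j < (s (k + d)).length := by rw [hlen] at hj ⊢; omega
      have h2 : j < (s (k + d + 1)).length := by rw [hlen] at hj ⊢; omega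
      have h3 : j < (s (k + d + 1)).dropLast.length := by rw [hpre]; exact h1
      rw [List.getD_eq_getElem _ _ h3, List.getElem_dropLast]
      exact List.getD_eq_getElem _ _ h2
  refine ⟨fun j => (s (j + 1)).getD j 0, fun k => ?_⟩
  apply List.ext_getElem
  · simp [hlen k]
  · intro j h1 h2
    have h3 : j < (s (j + 1)).length := by rw [hlen]; omega
    have a1 := hstep k (j + 1) j h1
    have a2 := hstep (j + 1) k j h3
    rw [show j + 1 + k = k + (j + 1) by omega] at a2
    rw [List.getD_eq_getElem _ _ h1] at a1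
    simp only [fw, List.getElem_map, List.getElem_range]
    rw [← a2, a1]

/-- The fixed point condition. -/
def Sat {ι : Type} (cond : ι → ℕ → Prop) (pos : ι → ℕ → List ι) (p : ι → ℕ) : Prop :=
  (∀ i m, p i = m + 1 → cond i m ∧ ∀ j ∈ pos i m, p j = 0) ∧
  (∀ i m, cond i m → (∀ j ∈ pos i m, p j = 0) → p i ≠ 0 ∧ p i ≤ m + 1)

theorem Sat.ne_zero_iff {ι : Type} {cond : ι → ℕ → Prop} {pos : ι → ℕ → List ι} {p : ι → ℕ}
    (h : Sat cond pos p) (i : ι) : p i ≠ 0 ↔ ∃ m, cond i m ∧ ∀ j ∈ pos i m, p j = 0 := by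
  constructor
  · intro hi
    obtain ⟨m, hm⟩ := Nat.exists_eq_succ_of_ne_zero hi
    exact ⟨m, h.1 i m hm⟩
  · rintro ⟨m, h1, h2⟩
    exact (h.2 i m h1 h2).1

theorem exists_sat {ι : Type} (cond : ι → ℕ → Prop) (pos : ι → ℕ → List ι) (r : ι → ι → Prop)
    (wf : WellFounded r) (hr : ∀ i m, cond i m → ∀ j ∈ pos i m, r j i) :
    ∃ h, Sat cond pos h := by
  classical
  let F : (i : ι) → ((j : ι) → r j i → ℕ) → ℕ := fun i rc =>
    if H : ∃ m, cond i m ∧ ∀ j ∈ pos i m, ∀ hj : r j i, rc j hj = 0 then Nat.find H + 1 else 0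
  let h : ι → ℕ := wf.fix F
  have hh : ∀ i, h i = F i (fun j _ => h j) := fun i => wf.fix_eq F i
  refine ⟨h, ?_, ?_⟩
  · intro i m hm
    rw [hh] at hm
    simp only [F] at hm
    split_ifs at hm with H
    · have h1 := Nat.find_spec H
      have h2 : Nat.find H = m := by omega
      rw [h2] at h1
      exact ⟨h1.1, fun j hj => h1.2 j hj (hr i m h1.1 j hj)⟩
  · intro i m h1 h2
    have H : ∃ m, cond i m ∧ ∀ j ∈ pos i m, ∀ _ : r j i, h j = 0 :=
      ⟨m, h1, fun j hj _ => h2 j hj⟩
    rw [hh]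
    simp only [F]
    rw [dif_pos H]
    have : Nat.find H ≤ m := Nat.find_min' H ⟨h1, fun j hj _ => h2 j hj⟩
    omega

theorem sat_unique {ι : Type} {cond : ι → ℕ → Prop} {pos : ι → ℕ → List ι} {r : ι → ι → Prop}
    (wf : WellFounded r) (hr : ∀ i m, cond i m → ∀ j ∈ pos i m, r j i) {p q : ι → ℕ}
    (hp : Sat cond pos p) (hq : Sat cond pos q) : p = q := by
  funext i
  induction i using wf.induction with
  | _ i ih =>
    have key : ∀ {p q : ι → ℕ}, Sat cond pos p → Sat cond pos q → (∀ j, r j i → p j = q j) →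
        p i ≠ 0 → q i ≠ 0 ∧ q i ≤ p i := by
      intro p q hp hq ih hi
      obtain ⟨m, hm⟩ := Nat.exists_eq_succ_of_ne_zero hi
      obtain ⟨h1, h2⟩ := hp.1 i m hm
      have := hq.2 i m h1 (fun j hj => by rw [← ih j (hr i m h1 j hj)]; exact h2 j hj)
      rw [hm]; exact this
    have k1 := key hp hq ih
    have k2 := key hq hp (fun j hj => (ih j hj).symm)
    by_cases h1 : p i = 0 <;> by_cases h2 : q i = 0
    · rw [h1, h2]
    · exact absurd h1 (k2 h2).1
    · exact absurd h2 (k1 h1).1
    · exact le_antisymm (k2 h2).2 (k1 h1).2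

/-- Visible failure of the fixed point condition. -/
def Viol (cond : ℕ → ℕ → Prop) (pos : ℕ → ℕ → List ℕ) (q : ℕ) (s : List ℕ) : Prop :=
  (s.getD q.unpair.1 0 = q.unpair.2 + 1 ∧
    ¬ (cond q.unpair.1 q.unpair.2 ∧ ∀ j ∈ pos q.unpair.1 q.unpair.2, s.getD j 0 = 0)) ∨
  (cond q.unpair.1 q.unpair.2 ∧ (∀ j ∈ pos q.unpair.1 q.unpair.2, s.getD j 1 = 0) ∧
    (s.getD q.unpair.1 1 = 0 ∨ q.unpair.2 + 1 < s.getD q.unpair.1 0))

theorem primrec_viol {cond : ℕ → ℕ → Prop} {pos : ℕ → ℕ → List ℕ} (hc : PrimrecRel cond)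
    (hp : Primrec₂ pos) : PrimrecRel (Viol cond pos) := by
  have u1 : Primrec fun a : ℕ × List ℕ => a.1.unpair.1 :=
    Primrec.fst.comp (Primrec.unpair.comp Primrec.fst)
  have u2 : Primrec fun a : ℕ × List ℕ => a.1.unpair.2 :=
    Primrec.snd.comp (Primrec.unpair.comp Primrec.fst)
  have c : PrimrecPred fun a : ℕ × List ℕ => cond a.1.unpair.1 a.1.unpair.2 := hc.comp u1 u2
  have g : ∀ d : ℕ, PrimrecPred fun a : ℕ × List ℕ =>
      ∀ j ∈ pos a.1.unpair.1 a.1.unpair.2, a.2.getD j d = 0 := by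
    intro d
    have h1 : PrimrecRel fun (j : ℕ) (s : List ℕ) => s.getD j d = 0 :=
      PrimrecPred.primrecRel (p := fun a : ℕ × List ℕ => a.2.getD a.1 d = 0)
        (Primrec.eq.comp ((Primrec.list_getD d).comp Primrec.snd Primrec.fst) (Primrec.const 0))
    exact h1.forall_mem_list.comp (hp.comp u1 u2) Primrec.snd
  have v : ∀ d : ℕ, Primrec fun a : ℕ × List ℕ => a.2.getD a.1.unpair.1 d :=
    fun d => (Primrec.list_getD d).comp Primrec.snd u1
  have w : Primrec fun a : ℕ × List ℕ => a.1.unpair.2 + 1 := Primrec.succ.comp u2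
  exact PrimrecPred.primrecRel (p := fun a : ℕ × List ℕ => Viol cond pos a.1 a.2)
    (((Primrec.eq.comp (v 0) w).and (c.and (g 0)).not).or
      (c.and ((g 1).and ((Primrec.eq.comp (v 1) (Primrec.const 0)).or
        (Primrec.nat_lt.comp w (v 0))))))

theorem uniq_path_nat (cond : ℕ → ℕ → Prop) (pos : ℕ → ℕ → List ℕ) (hc : PrimrecRel cond)
    (hp : Primrec₂ pos) (r : ℕ → ℕ → Prop) (wf : WellFounded r)
    (hr : ∀ i m, cond i m → ∀ j ∈ pos i m, r j i) :
    ∃ (h : ℕ → ℕ) (Q : List ℕ → Prop), PrimrecPred Q ∧ (∀ n, Q (fw h n)) ∧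
      (∀ p L, (∀ n, L ≤ n → Q (fw p n)) → p = h) ∧ Sat cond pos h := by
  obtain ⟨h, hh⟩ := exists_sat cond pos r wf hr
  refine ⟨h, fun s => ∀ q ∈ List.range s.length, ¬ Viol cond pos q s, ?_, ?_, ?_, hh⟩
  · exact (primrec_viol hc hp).not.forall_mem_list.comp
      (Primrec.list_range.comp Primrec.list_length) Primrec.id
  · intro n q _ hv
    rcases hv with ⟨h1, h2⟩ | ⟨h1, h2, h3⟩
    · rw [fw_getD] at h1
      split_ifs at h1 with hlt
      · obtain ⟨a1, a2⟩ := hh.1 _ _ h1
        refine h2 ⟨a1, fun j hj => ?_⟩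
        rw [fw_getD]
        split_ifs
        · exact a2 j hj
        · rfl
    · have := hh.2 _ _ h1 (fun j hj => by
        have := h2 j hj
        rw [fw_getD] at this
        split_ifs at this
        exact this)
      rw [fw_getD, fw_getD] at h3
      by_cases hlt : q.unpair.1 < n
      · rw [if_pos hlt, if_pos hlt] at h3; omega
      · rw [if_neg hlt, if_neg hlt] at h3; omega
  · intro p L hL
    refine sat_unique wf hr ⟨?_, ?_⟩ hh
    · intro i m hm
      by_contra hcon
      let n := L + Nat.pair i m + i + (pos i m).sum + 1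
      refine hL n (by omega) (Nat.pair i m) (by simp [n]; omega) (Or.inl ?_)
      simp only [Nat.unpair_pair]
      refine ⟨by rw [fw_getD, if_pos (by omega)]; exact hm, fun ⟨a1, a2⟩ => hcon ⟨a1, ?_⟩⟩
      intro j hj
      have := a2 j hj
      have hj' : j ≤ (pos i m).sum := List.le_sum_of_mem hj
      rwa [fw_getD, if_pos (by omega)] at this
    · intro i m a1 a2
      by_contra hcon
      let n := L + Nat.pair i m + i + (pos i m).sum + 1
      refine hL n (by omega) (Nat.pair i m) (by simp [n]; omega) (Or.inr ?_)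
      simp only [Nat.unpair_pair]
      refine ⟨a1, fun j hj => ?_, ?_⟩
      · have hj' : j ≤ (pos i m).sum := List.le_sum_of_mem hj
        rw [fw_getD, if_pos (by omega)]
        exact a2 j hj
      · rw [fw_getD, fw_getD, if_pos (by omega), if_pos (by omega)]
        omega

theorem uniq_path {ι : Type} [Primcodable ι] [Inhabited ι] (cond : ι → ℕ → Prop)
    (pos : ι → ℕ → List ι) (hc : PrimrecRel cond)
    (hp : Primrec₂ pos) (r : ι → ι → Prop) (wf : WellFounded r)
    (hr : ∀ i m, cond i m → ∀ j ∈ pos i m, r j i) :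
    ∃ (h : ℕ → ℕ) (Q : List ℕ → Prop), PrimrecPred Q ∧ (∀ n, Q (fw h n)) ∧
      (∀ p L, (∀ n, L ≤ n → Q (fw p n)) → p = h) ∧ Sat cond pos (fun i => h (encode i)) := by
  let D : ℕ → ι := fun n => (decode n : Option ι).getD default
  have hD : Primrec D := Primrec.option_getD_default.comp Primrec.decode
  have hDe : ∀ i, D (encode i) = i := fun i => by simp [D]
  obtain ⟨h, Q, h1, h2, h3, h4⟩ := uniq_path_nat (fun i m => cond (D i) m)
    (fun i m => (pos (D i) m).map encode)
    (hc.comp₂ (hD.comp₂ Primrec₂.left) Primrec₂.right)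
    (Primrec.list_map (hp.comp (hD.comp Primrec.fst) Primrec.snd)
      (Primrec.encode.comp₂ Primrec₂.right)).to₂
    (InvImage r D) (InvImage.wf D wf) (by
      intro i m hc j hj
      obtain ⟨j', hj', rfl⟩ := List.mem_map.mp hj
      show r (D (encode j')) (D i)
      rw [hDe]
      exact hr _ _ hc _ hj')
  refine ⟨h, Q, h1, h2, h3, ?_, ?_⟩
  · intro i m hm
    have := h4.1 _ _ hm
    simp only [hDe, List.forall_mem_map] at this
    exact this
  · intro i m a1 a2
    refine h4.2 (encode i) m (by simpa only [hDe] using a1) ?_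
    simp only [hDe, List.forall_mem_map]
    exact a2

end Pool.Agent.H50Z.Aut
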